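import Mathlib

/-!
# Connected self 2-distance graphs with cut vertices: infinitely many orders

For every `n ≥ 13` with `n ≡ 1, 2 (mod 4)` there is a connected self 2-distance graph on `n`
vertices with a cut vertex.  A graph on `13` vertices (a leaf `12` of which has the property that
the isomorphism maps the neighbour of `12` to `12`) is joined at the vertex `12` to a
self-complementary graph.
-/

set_option autoImplicit false

namespace Pool.Agent.Results.MP_9880a5_co.InfiniteFamily

/-- The 2-distance graph: two distinct vertices are adjacent iff their distance is two. -/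
def twoDist {V : Type*} (G : SimpleGraph V) : SimpleGraph V where
  Adj x y := x ≠ y ∧ G.dist x y = 2
  symm := ⟨fun x y h => ⟨h.1.symm, by rw [SimpleGraph.dist_comm]; exact h.2⟩⟩
  loopless := ⟨fun x h => h.1 rfl⟩

/-- `G` is a self 2-distance graph. -/
def SelfTwoDist {V : Type*} (G : SimpleGraph V) : Prop := Nonempty (twoDist G ≃g G)

/-- `v` is a cut vertex of the connected graph `G`: deleting it leaves a graph with two vertices
which are not joined by a walk. -/
def IsCutVertex {V : Type*} (G : SimpleGraph V) (v : V) : Prop :=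
  ¬ (G.induce {w | w ≠ v}).Preconnected

theorem dist_two {V : Type*} (G : SimpleGraph V) (x y : V) :
    (x ≠ y ∧ G.dist x y = 2) ↔ (x ≠ y ∧ ¬ G.Adj x y ∧ ∃ z, G.Adj x z ∧ G.Adj z y) := by
  constructor
  · rintro ⟨hne, hd⟩
    refine ⟨hne, ?_, ?_⟩
    · intro ha
      have := SimpleGraph.dist_eq_one_iff_adj.2 ha
      omega
    · have hr : G.Reachable x y := by
        by_contra hr
        rw [SimpleGraph.dist_eq_zero_of_not_reachable hr] at hd
        omega
      obtain ⟨p, hp⟩ := hr.exists_walk_length_eq_dist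
      rw [hd] at hp
      match p, hp with
      | .cons h1 (.cons h2 .nil), _ => exact ⟨_, h1, h2⟩
  · rintro ⟨hne, hna, z, h1, h2⟩
    refine ⟨hne, ?_⟩
    have hle : G.dist x y ≤ 2 := by
      have := SimpleGraph.dist_le (SimpleGraph.Walk.cons h1 (.cons h2 .nil))
      simpa using this
    have hr : G.Reachable x y := h1.reachable.trans h2.reachable
    have hpos : 0 < G.dist x y := hr.pos_dist_of_ne hne
    have hne1 : G.dist x y ≠ 1 := fun h => hna (SimpleGraph.dist_eq_one_iff_adj.1 h)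
    omega

/-! ### Self-complementary graphs -/

/-- the edges of the path `1 0 2 3` -/
def pth (b d : ℕ) : Bool :=
  (b == 0 && d == 1) || (b == 1 && d == 0) || (b == 2 && d == 3) || (b == 3 && d == 2) ||
    (b == 0 && d == 2) || (b == 2 && d == 0)

/-- the adjacency of the self-complementary graph, in terms of quotients and remainders -/
def scRel (a b c d : ℕ) : Prop :=
  (a < c ∧ b % 2 = 1) ∨ (c < a ∧ d % 2 = 1) ∨ (a = c ∧ pth b d = true)

/-- a graph on `Fin h`, self-complementary if `h ≡ 0, 1 (mod 4)` -/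
def SC (h : ℕ) : SimpleGraph (Fin h) where
  Adj x y := x ≠ y ∧ scRel (x.1 / 4) (x.1 % 4) (y.1 / 4) (y.1 % 4)
  symm := ⟨fun x y hxy => by
    refine ⟨hxy.1.symm, ?_⟩
    rcases hxy.2 with h | h | h
    · exact Or.inr (Or.inl h)
    · exact Or.inl h
    · refine Or.inr (Or.inr ⟨h.1.symm, ?_⟩)
      have := h.2
      revert this
      generalize x.1 % 4 = b
      generalize y.1 % 4 = d
      unfold pth
      simp only [Bool.or_eq_true, Bool.and_eq_true, beq_iff_eq]
      omega⟩
  loopless := ⟨fun x hx => hx.1 rfl⟩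

/-- the antimorphism, on numbers -/
def sg (h i : ℕ) : ℕ := if 4 * (i / 4) + 3 < h then 4 * (i / 4) + (i % 4 + 1) % 4 else i

/-- its inverse -/
def sgi (h i : ℕ) : ℕ := if 4 * (i / 4) + 3 < h then 4 * (i / 4) + (i % 4 + 3) % 4 else i

theorem sg_lt {h i : ℕ} (hi : i < h) : sg h i < h := by
  unfold sg; split_ifs <;> omega

theorem sgi_lt {h i : ℕ} (hi : i < h) : sgi h i < h := by
  unfold sgi; split_ifs <;> omega

theorem sgi_sg (h i : ℕ) : sgi h (sg h i) = i := by
  unfold sgi sg; split_ifs <;> omega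

theorem sg_sgi (h i : ℕ) : sg h (sgi h i) = i := by
  unfold sgi sg; split_ifs <;> omega

/-- the antimorphism -/
def sig (h : ℕ) : Fin h ≃ Fin h where
  toFun x := ⟨sg h x.1, sg_lt x.2⟩
  invFun x := ⟨sgi h x.1, sgi_lt x.2⟩
  left_inv x := Fin.ext (sgi_sg h x.1)
  right_inv x := Fin.ext (sg_sgi h x.1)

theorem sg_div (h i : ℕ) : sg h i / 4 = i / 4 := by
  unfold sg; split_ifs <;> omega

theorem sg_mod {h i : ℕ} (hi : 4 * (i / 4) + 3 < h) : sg h i % 4 = (i % 4 + 1) % 4 := by
  unfold sg; rw [if_pos hi]; omega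

theorem pth_flip : ∀ b < 4, ∀ d < 4, b ≠ d → (pth ((b + 1) % 4) ((d + 1) % 4) = !pth b d) := by
  decide

theorem SC_compl (h : ℕ) (hh : h % 4 = 0 ∨ h % 4 = 1) (x y : Fin h) (hxy : x ≠ y) :
    (SC h).Adj (sig h x) (sig h y) ↔ ¬ (SC h).Adj x y := by
  have hx := x.2
  have hy := y.2
  have hne : x.1 ≠ y.1 := fun e => hxy (Fin.ext e)
  have hne' : sig h x ≠ sig h y := fun e => hxy ((sig h).injective e)
  have e1 : (SC h).Adj x y ↔ scRel (x.1 / 4) (x.1 % 4) (y.1 / 4) (y.1 % 4) :=
    ⟨fun h => h.2, fun h => ⟨hxy, h⟩⟩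
  have e2 : (SC h).Adj (sig h x) (sig h y) ↔
      scRel (sg h x.1 / 4) (sg h x.1 % 4) (sg h y.1 / 4) (sg h y.1 % 4) :=
    ⟨fun h => h.2, fun h => ⟨hne', h⟩⟩
  rw [e1, e2, sg_div, sg_div]
  unfold scRel
  rcases lt_trichotomy (x.1 / 4) (y.1 / 4) with hlt | heq | hgt
  · rw [sg_mod (i := x.1) (by omega)]
    omega
  · rw [sg_mod (i := x.1) (by omega), sg_mod (i := y.1) (by omega)]
    have := pth_flip (x.1 % 4) (by omega) (y.1 % 4) (by omega) (by omega)
    rw [this, heq]
    simp
  · rw [sg_mod (i := y.1) (by omega)]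
    omega

/-! ### Gluing -/

/-- the graph `R`, together with the graph `K`, all vertices of which are joined to the vertex `r`
of `R` -/
def glue {α β : Type} (R : SimpleGraph α) (r : α) (K : SimpleGraph β) : SimpleGraph (α ⊕ β) where
  Adj
    | .inl a, .inl b => R.Adj a b
    | .inl a, .inr _ => a = r
    | .inr _, .inl b => b = r
    | .inr x, .inr y => K.Adj x y
  symm := ⟨fun u v h => by
    match u, v, h with
    | .inl _, .inl _, h => exact h.symm
    | .inl _, .inr _, h => exact h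
    | .inr _, .inl _, h => exact h
    | .inr _, .inr _, h => exact h.symm⟩
  loopless := ⟨fun u h => by
    match u, h with
    | .inl a, h => exact R.loopless.irrefl a h
    | .inr x, h => exact K.loopless.irrefl x h⟩

theorem glue_ll {α β : Type} (R : SimpleGraph α) (r : α) (K : SimpleGraph β) (a b : α) :
    (glue R r K).Adj (.inl a) (.inl b) ↔ R.Adj a b := Iff.rfl

theorem glue_lr {α β : Type} (R : SimpleGraph α) (r : α) (K : SimpleGraph β) (a : α) (y : β) :
    (glue R r K).Adj (.inl a) (.inr y) ↔ a = r := Iff.rfl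

theorem glue_rl {α β : Type} (R : SimpleGraph α) (r : α) (K : SimpleGraph β) (b : α) (x : β) :
    (glue R r K).Adj (.inr x) (.inl b) ↔ b = r := Iff.rfl

theorem glue_rr {α β : Type} (R : SimpleGraph α) (r : α) (K : SimpleGraph β) (x y : β) :
    (glue R r K).Adj (.inr x) (.inr y) ↔ K.Adj x y := Iff.rfl

/-- the gluing of a rooted self 2-distance graph and a self-complementary graph -/
theorem glue_self {α β : Type} (R : SimpleGraph α) (r : α) (K : SimpleGraph β) (φ : α ≃ α)
    (σ : β ≃ β)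
    (hφ : ∀ a b, R.Adj (φ a) (φ b) ↔ (a ≠ b ∧ ¬ R.Adj a b ∧ ∃ c, R.Adj a c ∧ R.Adj c b))
    (hr : ∀ a, φ a = r ↔ R.Adj a r)
    (hσ : ∀ x y, x ≠ y → (K.Adj (σ x) (σ y) ↔ ¬ K.Adj x y)) :
    SelfTwoDist (glue R r K) := by
  refine ⟨⟨Equiv.sumCongr φ σ, ?_⟩⟩
  intro u v
  change (glue R r K).Adj (Equiv.sumCongr φ σ u) (Equiv.sumCongr φ σ v) ↔
    (u ≠ v ∧ (glue R r K).dist u v = 2)
  rw [dist_two]
  match u, v with
  | .inl a, .inl b =>
    simp only [Equiv.sumCongr_apply, Sum.map_inl]
    rw [glue_ll, hφ, glue_ll]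
    constructor
    · rintro ⟨h1, h2, c, h3, h4⟩
      exact ⟨fun h => h1 (Sum.inl.inj h), h2, .inl c, h3, h4⟩
    · rintro ⟨h1, h2, c, h3, h4⟩
      have hab : a ≠ b := fun h => h1 (by rw [h])
      match c, h3, h4 with
      | .inl c, h3, h4 => exact ⟨hab, h2, c, h3, h4⟩
      | .inr c, h3, h4 =>
        rw [glue_lr] at h3
        rw [glue_rl] at h4
        exact absurd (h3.trans h4.symm) hab
  | .inl a, .inr y =>
    simp only [Equiv.sumCongr_apply, Sum.map_inl, Sum.map_inr]
    rw [glue_lr, hr, glue_lr]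
    constructor
    · intro h
      refine ⟨Sum.inl_ne_inr, ?_, .inl r, h, rfl⟩
      rintro rfl
      exact R.loopless.irrefl _ h
    · rintro ⟨h1, h2, c, h3, h4⟩
      match c, h3, h4 with
      | .inl c, h3, h4 =>
        rw [glue_lr] at h4
        rw [glue_ll, h4] at h3
        exact h3
      | .inr c, h3, h4 => exact absurd h3 h2
  | .inr x, .inl b =>
    simp only [Equiv.sumCongr_apply, Sum.map_inl, Sum.map_inr]
    rw [glue_rl, hr, glue_rl]
    constructor
    · intro h
      refine ⟨Sum.inr_ne_inl, ?_, .inl r, rfl, h.symm⟩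
      rintro rfl
      exact R.loopless.irrefl _ h
    · rintro ⟨h1, h2, c, h3, h4⟩
      match c, h3, h4 with
      | .inl c, h3, h4 =>
        rw [glue_rl] at h3
        rw [glue_ll, h3] at h4
        exact h4.symm
      | .inr c, h3, h4 => exact absurd h4 h2
  | .inr x, .inr y =>
    simp only [Equiv.sumCongr_apply, Sum.map_inr]
    rw [glue_rr, glue_rr]
    constructor
    · intro h
      have hne : x ≠ y := by
        rintro rfl
        exact K.loopless.irrefl _ h
      exact ⟨fun e => hne (Sum.inr.inj e), (hσ x y hne).1 h, .inl r, rfl, rfl⟩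
    · rintro ⟨h1, h2, _⟩
      exact (hσ x y (fun e => h1 (by rw [e]))).2 h2

theorem glue_connected {α β : Type} (R : SimpleGraph α) (r : α) (K : SimpleGraph β)
    (hR : R.Connected) : (glue R r K).Connected := by
  have h1 : ∀ a, (glue R r K).Reachable (.inl a) (.inl r) := by
    intro a
    have : ∀ a b, R.Walk a b → (glue R r K).Reachable (.inl a) (.inl b) := by
      intro a b p
      induction p with
      | nil => exact SimpleGraph.Reachable.refl _
      | @cons a c b h p ih =>
        exact (SimpleGraph.Adj.reachable ((glue_ll R r K a c).2 h)).trans ih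
    obtain ⟨p⟩ := hR.preconnected a r
    exact this a r p
  have h2 : ∀ u, (glue R r K).Reachable u (.inl r) := by
    intro u
    match u with
    | .inl a => exact h1 a
    | .inr x => exact SimpleGraph.Adj.reachable ((glue_rl R r K r x).2 rfl)
  have : Nonempty (α ⊕ β) := ⟨.inl r⟩
  exact SimpleGraph.Connected.mk (fun u v => (h2 u).trans (h2 v).symm)

/-- a vertex all of whose neighbours are equal to `v` is separated from the others by `v` -/
theorem cut_of_leaf {V : Type*} (G : SimpleGraph V) (v x y : V) (hxv : x ≠ v) (hyv : y ≠ v)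
    (hxy : x ≠ y) (hx : ∀ z, G.Adj x z → z = v) : IsCutVertex G v := by
  intro h
  obtain ⟨w⟩ := h ⟨x, hxv⟩ ⟨y, hyv⟩
  have : ∀ (a b : {w | w ≠ v}), (G.induce {w | w ≠ v}).Walk a b → a.1 = x → b.1 = x := by
    intro a b p
    cases p with
    | nil => exact id
    | @cons _ c _ hac p =>
      intro ha
      exact absurd (hx c.1 (ha ▸ hac)) c.2
  exact hxy (this _ _ w rfl).symm

/-! ### The graph on thirteen vertices -/

/-- the edges -/
def edges : List (Fin 13 × Fin 13) :=
  [(0, 1), (0, 2), (1, 2), (1, 3), (0, 4), (4, 5), (5, 6), (6, 7), (7, 8), (8, 9), (8, 10),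
    (10, 11), (11, 12)]

/-- The graph. -/
def Gam : SimpleGraph (Fin 13) where
  Adj x y := (x, y) ∈ edges ∨ (y, x) ∈ edges
  symm := ⟨fun x y h => h.symm⟩
  loopless := ⟨by decide⟩

instance : DecidableRel Gam.Adj := fun x y => by unfold Gam; infer_instance

/-- the isomorphism from the 2-distance graph -/
def ph : Fin 13 ≃ Fin 13 where
  toFun := ![5, 9, 7, 6, 8, 4, 10, 0, 11, 2, 1, 12, 3]
  invFun := ![7, 10, 9, 12, 5, 0, 3, 2, 4, 1, 6, 8, 11]
  left_inv := by decide
  right_inv := by decide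

theorem Gam_conn : Gam.Connected := by
  have key : ∀ v : Fin 13, v = 0 ∨ ∃ w < v, Gam.Adj w v := by decide +kernel
  rw [SimpleGraph.connected_iff_exists_forall_reachable]
  refine ⟨0, fun v => ?_⟩
  induction v using WellFoundedLT.induction with
  | ind v ih =>
    rcases key v with rfl | ⟨w, h1, h2⟩
    · rfl
    · exact (ih w h1).trans h2.reachable

theorem ph_iso : ∀ a b, Gam.Adj (ph a) (ph b) ↔
    (a ≠ b ∧ ¬ Gam.Adj a b ∧ ∃ c, Gam.Adj a c ∧ Gam.Adj c b) := by
  decide +kernel

theorem ph_root : ∀ a, ph a = 12 ↔ Gam.Adj a 12 := by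
  decide +kernel

theorem Gam_leaf : ∀ z, Gam.Adj 3 z → z = 1 := by decide +kernel

/-- the graph obtained from `Gam` and a self-complementary graph `K` -/
theorem main {β : Type} (K : SimpleGraph β) (σ : β ≃ β)
    (hσ : ∀ x y, x ≠ y → (K.Adj (σ x) (σ y) ↔ ¬ K.Adj x y)) :
    (glue Gam 12 K).Connected ∧ SelfTwoDist (glue Gam 12 K) ∧
      IsCutVertex (glue Gam 12 K) (.inl 1) ∧ Nonempty (K ↪g glue Gam 12 K) := by
  refine ⟨glue_connected Gam 12 K Gam_conn, glue_self Gam 12 K ph σ ph_iso ph_root hσ, ?_, ?_⟩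
  · have h1 : (.inl 3 : Fin 13 ⊕ β) ≠ .inl 1 := fun h => absurd (Sum.inl.inj h) (by decide)
    have h2 : (.inl 0 : Fin 13 ⊕ β) ≠ .inl 1 := fun h => absurd (Sum.inl.inj h) (by decide)
    have h3 : (.inl 3 : Fin 13 ⊕ β) ≠ .inl 0 := fun h => absurd (Sum.inl.inj h) (by decide)
    apply cut_of_leaf _ _ (.inl 3) (.inl 0) h1 h2 h3
    intro z hz
    match z, hz with
    | .inl z, hz => rw [Gam_leaf z hz]
    | .inr z, hz =>
      have h4 : (3 : Fin 13) = 12 := hz
      exact absurd h4 (by decide)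
  · exact ⟨⟨⟨Sum.inr, Sum.inr_injective⟩, Iff.rfl⟩⟩

/-- **Infinitely many connected self 2-distance graphs with a cut vertex.**
(1) Every self-complementary graph `K` is an induced subgraph of a connected self 2-distance
graph with a cut vertex, which has exactly `13` vertices more than `K`.
(2) In particular, for every `n ≥ 13` with `n ≡ 1, 2 (mod 4)` there is a connected self
2-distance graph on `n` vertices with a cut vertex. -/
theorem result :
    (∀ (β : Type) [Fintype β] (K : SimpleGraph β), Nonempty (K ≃g Kᶜ) →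
      ∃ (V : Type) (_ : Fintype V) (G : SimpleGraph V), Fintype.card V = 13 + Fintype.card β ∧
        G.Connected ∧ SelfTwoDist G ∧ (∃ v, IsCutVertex G v) ∧ Nonempty (K ↪g G)) ∧
    (∀ n : ℕ, 13 ≤ n → (n % 4 = 1 ∨ n % 4 = 2) →
      ∃ (V : Type) (_ : Fintype V) (G : SimpleGraph V), Fintype.card V = n ∧
        G.Connected ∧ SelfTwoDist G ∧ ∃ v, IsCutVertex G v) := by
  refine ⟨?_, ?_⟩
  · rintro β _ K ⟨f⟩
    have hσ : ∀ x y, x ≠ y → (K.Adj (f.toEquiv x) (f.toEquiv y) ↔ ¬ K.Adj x y) := by
      intro x y hxy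
      have h1 : Kᶜ.Adj (f x) (f y) ↔ K.Adj x y := f.map_rel_iff
      have h2 : f x ≠ f y := fun h => hxy (f.injective h)
      rw [SimpleGraph.compl_adj] at h1
      constructor
      · intro h3 h4
        exact (h1.2 h4).2 h3
      · intro h3
        by_contra h4
        exact h3 (h1.1 ⟨h2, h4⟩)
    obtain ⟨h1, h2, h3, h4⟩ := main K f.toEquiv hσ
    exact ⟨Fin 13 ⊕ β, inferInstance, _, by simp, h1, h2, ⟨_, h3⟩, h4⟩
  · intro n hn hmod
    obtain ⟨h, rfl⟩ : ∃ h, n = 13 + h := ⟨n - 13, by omega⟩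
    obtain ⟨h1, h2, h3, -⟩ := main (SC h) (sig h) (fun x y hxy => SC_compl h (by omega) x y hxy)
    exact ⟨Fin 13 ⊕ Fin h, inferInstance, _, by simp, h1, h2, ⟨_, h3⟩⟩

end Pool.Agent.Results.MP_9880a5_co.InfiniteFamily
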